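import Pool.Agent.Phantom.Main

set_option autoImplicit false

open CategoryTheory CategoryTheory.Limits Pool.Agent.Phantom

universe v u w

/-- **A surface with a smooth anticanonical curve has no phantoms**, up to standard facts on
derived categories.

Let `P ⊣ Q` be an adjunction between `k`-linear triangulated categories `D` and `E`, with `P` exact
and `k`-linear, which has the properties `AnticanonicalCurve`.  For instance, let `S` be a smooth
projective complex surface with countable Picard group, and `i : C → S` the inclusion of a smooth
connected anticanonical curve; take `D = D^b(S)`, `E = D^b(C)`, `P = i^*` and `Q = i_*`.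

Let `A` be an admissible subcategory of `D`: a full triangulated subcategory whose inclusion `A.ι`
has a left adjoint and a right adjoint.  If `K₀(A) = 0` then `A = 0`: all objects of `A` are zero.

Every blowup `S` of a Hirzebruch surface `F_n`, `n ≤ 2`, in `d` general points, `d < 9`, or in any
number of distinct points of a smooth anticanonical curve, has a smooth anticanonical curve.  So
`D^b(S)` has no phantom subcategory.  No assumption on the map `Pic S → Pic C` is made. -/
theorem Pool.Agent.Results.MP_64ea52_ag.NoPhantoms.result
    (k : Type w) [Field k]
    (D : Type u) [Category.{v} D] [Preadditive D] [Linear k D] [HasZeroObject D] [HasShift D ℤ]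
    [∀ n : ℤ, (shiftFunctor D n).Additive] [Pretriangulated D]
    (E : Type u) [Category.{v} E] [Preadditive E] [Linear k E] [HasZeroObject E] [HasShift E ℤ]
    [∀ n : ℤ, (shiftFunctor E n).Additive] [∀ n : ℤ, (shiftFunctor E n).Linear k]
    [Pretriangulated E]
    (P : D ⥤ E) [P.CommShift ℤ] [P.IsTriangulated] [P.Linear k] (Q : E ⥤ D) (adj : P ⊣ Q)
    (S : AnticanonicalCurve k adj)
    (A : ObjectProperty D) [A.IsTriangulated] [A.ι.IsLeftAdjoint] [A.ι.IsRightAdjoint]
    (hK : Subsingleton (K0 A.FullSubcategory)) (X : D) (hX : A X) : IsZero X := by
  have h : IsZero (⟨X, hX⟩ : A.FullSubcategory) := isZero_of_k0 (k := k) A.ι S _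
  exact A.ι.map_isZero h
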